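import Pool.Agent.Y899.KM.Rec

set_option autoImplicit false

/-! Coefficientwise form of the recursion, symmetry, and the value of `A 18` (job N2 of project KM
of helper80). -/

open scoped BigOperators

namespace Pool.Agent.Y899.KM

open Pool.Agent.Y80.KM PowerSeries

/-- one term of the recursion -/
def term (A B : ℕ → ℤ) (q : ℕ → ℤ → ℤ) (m : ℤ) (p : ℕ × ℕ) (d : ℕ) : ℤ :=
  if d ∣ p.2 ∧ 0 < p.2 then
    -((d : ℤ) * ((A d + B d) * q p.1 m + A d * (q p.1 (m - ((p.2 / d : ℕ) : ℤ)) +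
      q p.1 (m + ((p.2 / d : ℕ) : ℤ)))))
  else 0

/-- the right hand side of the recursion -/
def rhs (A B : ℕ → ℤ) (q : ℕ → ℤ → ℤ) (N n : ℕ) (m : ℤ) : ℤ :=
  ∑ p ∈ Finset.HasAntidiagonal.antidiagonal n, ∑ d ∈ Finset.Icc 1 N, term A B q m p d

/-- the coefficients -/
noncomputable def qq (A B : ℕ → ℤ) (N n : ℕ) (m : ℤ) : ℤ :=
  (coeff n (GJ A B N)).coeff m

theorem coeff_mul_wtj (f : TorusChar) (k m : ℤ) : (f * wtj k).coeff m = f.coeff (m - k) := by
  rw [wtj, AddMonoidAlgebra.coeff_mul_single_apply, mul_one, sub_eq_add_neg]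

theorem coeff_fac (A B : ℕ → ℤ) (d j : ℕ) : coeff j (fac A B d) =
    if d ∣ j ∧ 0 < j then -((d : TorusChar) * (((A d + B d : ℤ) : TorusChar) * wtj 0 +
      (((A d : ℤ) : TorusChar) * wtj ((j / d : ℕ) : ℤ) +
        ((A d : ℤ) : TorusChar) * wtj (-((j / d : ℕ) : ℤ))))) else 0 := by
  unfold fac
  have h : ∀ (z : ℤ) (f : PowerSeries TorusChar),
      coeff j ((z : PowerSeries TorusChar) * f) = (z : TorusChar) * coeff j f := by
    intro z f
    rw [← zsmul_eq_mul, map_zsmul, zsmul_eq_mul]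
  rw [map_add, map_add, h, h, h, coeff_LL, coeff_LL, coeff_LL]
  split_ifs with h1
  · rw [zero_mul, one_mul, neg_one_mul]
    ring
  · simp

theorem coeff_int_mul (z : ℤ) (f : TorusChar) (m : ℤ) :
    ((z : TorusChar) * f).coeff m = z * f.coeff m := by
  rw [← zsmul_eq_mul, AddMonoidAlgebra.coeff_smul_apply, smul_eq_mul]

theorem coeff_nat_mul (z : ℕ) (f : TorusChar) (m : ℤ) :
    ((z : TorusChar) * f).coeff m = z * f.coeff m := by
  have := coeff_int_mul (z : ℤ) f m
  rwa [Int.cast_natCast] at this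

theorem recursion (A B : ℕ → ℤ) (N n : ℕ) (m : ℤ) :
    (n : ℤ) * qq A B N n m = rhs A B (qq A B N) N n m := by
  have h := LD_GJ A B N
  unfold LD at h
  have h1 : (n : TorusChar) * coeff n (GJ A B N) =
      ∑ p ∈ Finset.HasAntidiagonal.antidiagonal n, ∑ d ∈ Finset.Icc 1 N,
        coeff p.1 (GJ A B N) * coeff p.2 (fac A B d) := by
    rw [← coeff_D, h, coeff_mul]
    refine Finset.sum_congr rfl fun p _ => ?_
    rw [map_sum, Finset.mul_sum]
  have h2 := congrArg (fun f : TorusChar => f.coeff m) h1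
  simp only [coeff_nat_mul] at h2
  unfold qq rhs
  rw [h2, AddMonoidAlgebra.coeff_sum, Finsupp.finsetSum_apply]
  refine Finset.sum_congr rfl fun p _ => ?_
  rw [AddMonoidAlgebra.coeff_sum, Finsupp.finsetSum_apply]
  refine Finset.sum_congr rfl fun d _ => ?_
  rw [coeff_fac]
  unfold term
  split_ifs with h3
  · have e : coeff p.1 (GJ A B N) * -((d : TorusChar) * (((A d + B d : ℤ) : TorusChar) * wtj 0 +
      (((A d : ℤ) : TorusChar) * wtj ((p.2 / d : ℕ) : ℤ) +
        ((A d : ℤ) : TorusChar) * wtj (-((p.2 / d : ℕ) : ℤ))))) =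
        ((-(d : ℤ) : ℤ) : TorusChar) * (((A d + B d : ℤ) : TorusChar) *
          (coeff p.1 (GJ A B N) * wtj 0) +
          (((A d : ℤ) : TorusChar) * (coeff p.1 (GJ A B N) * wtj ((p.2 / d : ℕ) : ℤ)) +
            ((A d : ℤ) : TorusChar) * (coeff p.1 (GJ A B N) * wtj (-((p.2 / d : ℕ) : ℤ))))) := by
      push_cast
      ring
    rw [e, coeff_int_mul, AddMonoidAlgebra.coeff_add, Finsupp.add_apply, coeff_int_mul,
      AddMonoidAlgebra.coeff_add, Finsupp.add_apply, coeff_int_mul, coeff_int_mul,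
      coeff_mul_wtj, coeff_mul_wtj, coeff_mul_wtj, sub_zero, sub_neg_eq_add]
    ring
  · rw [mul_zero]
    rfl

theorem multj_eq (m : ℤ) (f : TorusChar) : multj m f = f.coeff m - f.coeff (m + 1) := by
  unfold multj
  rw [mul_sub, mul_one, AddMonoidAlgebra.coeff_sub, Finsupp.sub_apply, coeff_mul_wtj,
    sub_neg_eq_add]

theorem const_zpw1 (f : PowerSeries TorusChar) (h : constantCoeff f = 1) (n : ℤ) :
    constantCoeff (zpw1 f n) = 1 := by
  unfold zpw1
  split_ifs
  · rw [map_pow, h, one_pow]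
  · have : f * invOfUnit f 1 = 1 := mul_invOfUnit f 1 (by simpa using h)
    have h2 := congrArg constantCoeff this
    rw [map_mul, h, one_mul, map_one] at h2
    rw [map_pow, h2, one_pow]

theorem const_GJ (A B : ℕ → ℤ) (N : ℕ) : constantCoeff (GJ A B N) = 1 := by
  unfold GJ
  rw [map_prod]
  refine Finset.prod_eq_one fun n hn => ?_
  have h1 := (Finset.mem_Icc.1 hn).1
  rw [map_mul, map_mul, const_zpw1 _ (const_base n h1 0), const_zpw1 _ (const_base n h1 1),
    const_zpw1 _ (const_base n h1 (-1)), one_mul, one_mul]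

theorem qq_zero (A B : ℕ → ℤ) (N : ℕ) (m : ℤ) : qq A B N 0 m = if m = 0 then 1 else 0 := by
  unfold qq
  rw [coeff_zero_eq_constantCoeff_apply, const_GJ]
  have : (1 : TorusChar) = AddMonoidAlgebra.single 0 1 := rfl
  rw [this]
  change (Finsupp.single (0 : ℤ) (1 : ℤ)) m = _
  rw [Finsupp.single_apply]
  simp only [eq_comm]

theorem qq_symm (A B : ℕ → ℤ) (N n : ℕ) : ∀ m : ℤ, qq A B N n (-m) = qq A B N n m := by
  induction n using Nat.strong_induction_on with
  | _ n ih =>
    intro m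
    rcases Nat.eq_zero_or_pos n with rfl | hn
    · rw [qq_zero, qq_zero]
      simp only [neg_eq_zero]
    · have h1 : (n : ℤ) ≠ 0 := by omega
      apply mul_left_cancel₀ h1
      rw [recursion, recursion]
      unfold rhs
      refine Finset.sum_congr rfl fun p hp => Finset.sum_congr rfl fun d _ => ?_
      unfold term
      rw [Finset.HasAntidiagonal.mem_antidiagonal] at hp
      split_ifs with h
      · have h2 := ih p.1 (by omega)
        have e1 : -m - ((p.2 / d : ℕ) : ℤ) = -(m + ((p.2 / d : ℕ) : ℤ)) := by ring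
        have e2 : -m + ((p.2 / d : ℕ) : ℤ) = -(m - ((p.2 / d : ℕ) : ℤ)) := by ring
        rw [e1, e2, h2, h2, h2]
        ring
      · rfl

theorem GJ_symm (A B : ℕ → ℤ) (N n : ℕ) (m : ℤ) :
    (PowerSeries.coeff n (GJ A B N)).coeff (-m) = (PowerSeries.coeff n (GJ A B N)).coeff m :=
  qq_symm A B N n m

/-- the coefficients with nonnegative second exponent -/
def tabT : List (List ℤ) := [
  [1],
  [-3, -3],
  [3, 3, 3],
  [9, 9, 9, -1],
  [0, 0, 0, -15, 0],
  [-21, -21, -21, -39, 6, 0],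
  [-63, -63, -63, -92, 45, 0, 0],
  [-57, -57, -57, -93, 204, -15, 0, 0],
  [-45, -45, -45, -93, 609, -123, 0, 0, 0],
  [117, 117, 117, 103, 1629, -684, 20, 0, 0, 0],
  [528, 528, 528, 666, 3978, -2703, 255, 0, 0, 0, 0],
  [1467, 1467, 1467, 2241, 9075, -9543, 1626, -15, 0, 0, 0, 0],
  [3501, 3501, 3501, 6271, 19728, -30213, 8179, -333, 0, 0, 0, 0, 0],
  [8433, 8433, 8433, 17232, 40629, -90744, 34458, -2784, 6, 0, 0, 0, 0, 0],
  [19749, 19749, 19749, 45135, 76071, -259713, 131604, -17001, 255, 0, 0, 0, 0, 0, 0],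
  [46746, 46746, 46746, 115146, 117315, -720495, 466072, -85401, 3204, -1, 0, 0, 0, 0, 0, 0],
  [107715, 107715, 107715, 279372, 85401, -1936518, 1568592, -380241, 24402, -105, 0, 0, 0, 0,
    0, 0, 0],
  [234948, 234948, 234948, 630354, -370128, -5058882, 5068980, -1550001, 147813, -2289, 0, 0,
    0, 0, 0, 0, 0, 0],
  [450513, 450513, 450513, 1252666, -2526858, -12788568, 15873907, -5933799, 765711, -23664,
    18, 0, 0, 0, 0, 0, 0, 0, 0]]

def tabA : List ℤ := [0, 3, 6, 18, 45, 135, 378, 1134, 3324, 9981, 29733, 89280, 267273, 801957,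
  2403018, 7203942, 21582282, 64661358, 193681917]

def tabB : List ℤ := [0, 0, 3, 8, 33, 96, 313, 936, 2904, 8752, 26730, 80769, 244888, 739290,
  2232477, 6726735, 20258463, 60937386, 183206543]

def T (n : ℕ) (m : ℤ) : ℤ := (tabT.getD n []).getD m.natAbs 0
def a (n : ℕ) : ℤ := tabA.getD n 0
def b (n : ℕ) : ℤ := tabB.getD n 0

theorem T_out (n : ℕ) (hn : n ≤ 18) (m : ℤ) (hm : n < m.natAbs) : T n m = 0 := by
  have h : ∀ n ∈ Finset.range 19, (tabT.getD n []).length ≤ n + 1 := by decide +kernel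
  have h1 := h n (Finset.mem_range.2 (by omega))
  unfold T
  exact List.getD_eq_default _ _ (by omega)

theorem check_in : ∀ n ∈ Finset.range 19, ∀ i ∈ Finset.range 37,
    (n : ℤ) * T n ((i : ℤ) - 18) = rhs a b T 18 n ((i : ℤ) - 18) := by
  decide +kernel

theorem check (n : ℕ) (hn : n ≤ 18) (m : ℤ) : (n : ℤ) * T n m = rhs a b T 18 n m := by
  by_cases hm : m.natAbs ≤ 18
  · have h := check_in n (Finset.mem_range.2 (by omega)) (m + 18).toNat
      (Finset.mem_range.2 (by omega))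
    have e : (((m + 18).toNat : ℕ) : ℤ) - 18 = m := by omega
    rwa [e] at h
  · rw [T_out n hn m (by omega), mul_zero]
    unfold rhs
    symm
    refine Finset.sum_eq_zero fun p hp => Finset.sum_eq_zero fun d hd => ?_
    rw [Finset.HasAntidiagonal.mem_antidiagonal] at hp
    unfold term
    split_ifs with h
    · have h1 : p.2 / d ≤ p.2 := Nat.div_le_self _ _
      generalize p.2 / d = k at h1 ⊢
      rw [T_out p.1 (by omega) m (by omega), T_out p.1 (by omega) _ (by omega),
        T_out p.1 (by omega) _ (by omega)]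
      simp
    · rfl

theorem diff (A B : ℕ → ℤ) (q : ℕ → ℤ → ℤ) (n : ℕ) (h1 : 1 ≤ n) (hn : n ≤ 18)
    (hq : ∀ n' < n, ∀ m, q n' m = T n' m)
    (hA : ∀ n' < n, 1 ≤ n' → A n' = a n' ∧ B n' = b n') (m : ℤ) :
    rhs A B q 18 n m = rhs a b T 18 n m - (n : ℤ) * (((A n - a n) + (B n - b n)) * T 0 m +
      (A n - a n) * (T 0 (m - 1) + T 0 (m + 1))) := by
  have key : ∀ p ∈ Finset.HasAntidiagonal.antidiagonal n, ∀ d ∈ Finset.Icc 1 18,
      term A B q m p d = term a b T m p d + if p = (0, n) ∧ d = n then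
        -((n : ℤ) * (((A n - a n) + (B n - b n)) * T 0 m +
      (A n - a n) * (T 0 (m - 1) + T 0 (m + 1)))) else 0 := by
    intro p hp d hd
    rw [Finset.HasAntidiagonal.mem_antidiagonal] at hp
    rw [Finset.mem_Icc] at hd
    unfold term
    by_cases h : d ∣ p.2 ∧ 0 < p.2
    · rw [if_pos h, if_pos h]
      have hd2 : d ≤ p.2 := Nat.le_of_dvd h.2 h.1
      rw [hq p.1 (by omega), hq p.1 (by omega), hq p.1 (by omega)]
      by_cases h3 : p = (0, n) ∧ d = n
      · rw [if_pos h3]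
        obtain ⟨rfl, rfl⟩ := h3
        simp only [Nat.div_self h1, Nat.cast_one]
        ring
      · rw [if_neg h3, add_zero]
        have h4 : d < n := by
          by_contra h5
          apply h3
          refine ⟨Prod.ext ?_ ?_, ?_⟩
          · change p.1 = 0
            omega
          · change p.2 = n
            omega
          · omega
        rw [(hA d h4 hd.1).1, (hA d h4 hd.1).2]
    · rw [if_neg h, if_neg h, if_neg, add_zero]
      rintro ⟨rfl, rfl⟩
      exact h ⟨dvd_rfl, h1⟩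
  unfold rhs
  rw [Finset.sum_congr rfl fun p hp => Finset.sum_congr rfl fun d hd => key p hp d hd]
  simp only [Finset.sum_add_distrib]
  have h5 : ∑ p ∈ Finset.HasAntidiagonal.antidiagonal n, ∑ d ∈ Finset.Icc 1 18,
      (if p = (0, n) ∧ d = n then
        -((n : ℤ) * (((A n - a n) + (B n - b n)) * T 0 m +
      (A n - a n) * (T 0 (m - 1) + T 0 (m + 1)))) else 0) =
      -((n : ℤ) * (((A n - a n) + (B n - b n)) * T 0 m +
      (A n - a n) * (T 0 (m - 1) + T 0 (m + 1)))) := by
    rw [Finset.sum_eq_single (0, n), Finset.sum_eq_single n, if_pos ⟨rfl, rfl⟩]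
    · intro d _ hd
      rw [if_neg fun h => hd h.2]
    · intro h
      exact absurd (Finset.mem_Icc.2 ⟨h1, hn⟩) h
    · intro p _ hp
      exact Finset.sum_eq_zero fun d _ => by rw [if_neg fun h => hp h.1]
    · intro h
      exact absurd (Finset.HasAntidiagonal.mem_antidiagonal.2 (by simp)) h
  rw [h5]
  ring

theorem table_facts : ∀ n ∈ Finset.Icc 1 18, T n 0 - T n 1 = 0 ∧
    T n 1 - T n 2 = if n = 1 then -3 else 0 := by
  decide +kernel

theorem main (A B : ℕ → ℤ)
    (h0 : ∀ n, 1 ≤ n → n ≤ 18 → multj 0 (PowerSeries.coeff n (GJ A B 18)) = 0)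
    (h1 : ∀ n, 1 ≤ n → n ≤ 18 →
      multj 1 (PowerSeries.coeff n (GJ A B 18)) = if n = 1 then -3 else 0) :
    ∀ n, n ≤ 18 → (∀ m, qq A B 18 n m = T n m) ∧ (1 ≤ n → A n = a n ∧ B n = b n) := by
  intro n
  induction n using Nat.strong_induction_on with
  | _ n ih =>
    intro hn
    rcases Nat.eq_zero_or_pos n with rfl | hn1
    · refine ⟨fun m => ?_, fun h => absurd h (by omega)⟩
      rw [qq_zero]
      split_ifs with h
      · subst h; rfl
      · rw [T_out 0 (by omega) m (by omega)]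
    · have hq : ∀ n' < n, ∀ m, qq A B 18 n' m = T n' m := fun n' h => (ih n' h (by omega)).1
      have hA : ∀ n' < n, 1 ≤ n' → A n' = a n' ∧ B n' = b n' := fun n' h => (ih n' h (by omega)).2
      have hn0 : (n : ℤ) ≠ 0 := by omega
      have hd : ∀ m, qq A B 18 n m = T n m - (((A n - a n) + (B n - b n)) * T 0 m +
          (A n - a n) * (T 0 (m - 1) + T 0 (m + 1))) := by
        intro m
        apply mul_left_cancel₀ hn0
        rw [recursion, diff A B _ n hn1 hn hq hA m, ← check n hn m]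
        ring
      have t0 : T 0 0 = 1 := rfl
      have t1 : T 0 1 = 0 := rfl
      have t2 : T 0 2 = 0 := rfl
      have t3 : T 0 3 = 0 := rfl
      have t4 : T 0 (-1) = 0 := rfl
      have e0 := h0 n hn1 hn
      have e1 := h1 n hn1 hn
      rw [multj_eq] at e0 e1
      change qq A B 18 n 0 - qq A B 18 n (0 + 1) = 0 at e0
      change qq A B 18 n 1 - qq A B 18 n (1 + 1) = _ at e1
      have f := table_facts n (Finset.mem_Icc.2 ⟨hn1, hn⟩)
      have d0 := hd 0
      have d1 := hd 1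
      have d2 := hd 2
      norm_num [t0, t1, t2, t3, t4] at d0 d1 d2 e0 e1
      have hB : B n = b n := by linarith [f.1]
      have hA' : A n = a n := by
        have := f.2
        linarith
      refine ⟨fun m => ?_, fun _ => ⟨hA', hB⟩⟩
      rw [hd, hA', hB]
      ring

theorem num2 (A B : ℕ → ℤ)
    (h0 : ∀ n, 1 ≤ n → n ≤ 18 → multj 0 (PowerSeries.coeff n (GJ A B 18)) = 0)
    (h1 : ∀ n, 1 ≤ n → n ≤ 18 →
      multj 1 (PowerSeries.coeff n (GJ A B 18)) = if n = 1 then -3 else 0) :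
    A 18 = 193681917 :=
  ((main A B h0 h1 18 le_rfl).2 (by norm_num)).1

end Pool.Agent.Y899.KM
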