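import Pool.Agent.Y80.KM.CharDefs

set_option autoImplicit false

/-! The recursion for the coefficients of the graded Euler characteristic, by the logarithmic
derivative. -/

open scoped BigOperators

namespace Pool.Agent.Y899.KM

open Pool.Agent.Y80.KM PowerSeries

theorem wtj_mul (a b : ℤ) : wtj a * wtj b = wtj (a + b) := by
  rw [wtj, wtj, wtj, AddMonoidAlgebra.single_mul_single, one_mul]

theorem wtj_zero : wtj 0 = 1 := rfl

/-- `X d/dX` -/
noncomputable def D (f : PowerSeries TorusChar) : PowerSeries TorusChar :=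
  PowerSeries.mk fun n => (n : TorusChar) * coeff n f

theorem coeff_D (f : PowerSeries TorusChar) (n : ℕ) :
    coeff n (D f) = (n : TorusChar) * coeff n f := by simp [D]

theorem D_mul (f g : PowerSeries TorusChar) : D (f * g) = D f * g + f * D g := by
  ext n : 1
  rw [map_add, coeff_D, coeff_mul, coeff_mul, coeff_mul, Finset.mul_sum, ← Finset.sum_add_distrib]
  refine Finset.sum_congr rfl fun p hp => ?_
  rw [Finset.HasAntidiagonal.mem_antidiagonal] at hp
  rw [coeff_D, coeff_D, ← hp]
  push_cast
  ring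

theorem D_one : D 1 = 0 := by
  ext n : 1
  rw [coeff_D, coeff_one]
  split_ifs with h
  · subst h; simp
  · simp

/-- `L` is the logarithmic derivative of `f` -/
def LD (f L : PowerSeries TorusChar) : Prop := D f = f * L

theorem LD.mul {f g L M : PowerSeries TorusChar} (hf : LD f L) (hg : LD g M) :
    LD (f * g) (L + M) := by
  unfold LD at *
  rw [D_mul, hf, hg]
  ring

theorem LD.one : LD 1 0 := by
  unfold LD
  rw [D_one, mul_zero]

theorem LD.pow {f L : PowerSeries TorusChar} (hf : LD f L) (n : ℕ) : LD (f ^ n) (n * L) := by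
  induction n with
  | zero => simpa using LD.one
  | succ n ih =>
    rw [pow_succ]
    have := ih.mul hf
    convert this using 1
    push_cast
    ring

theorem LD.inv {f L : PowerSeries TorusChar} (h0 : constantCoeff f = 1) (hf : LD f L) :
    LD (invOfUnit f 1) (-L) := by
  have h1 : f * invOfUnit f 1 = 1 := mul_invOfUnit f 1 (by simpa using h0)
  have h2 := D_mul f (invOfUnit f 1)
  rw [h1, D_one] at h2
  unfold LD at *
  rw [hf] at h2
  have h3 : invOfUnit f 1 * (f * L * invOfUnit f 1 + f * D (invOfUnit f 1)) = 0 := by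
    rw [← h2, mul_zero]
  have h4 : invOfUnit f 1 * (f * L * invOfUnit f 1 + f * D (invOfUnit f 1)) =
      (f * invOfUnit f 1) * (L * invOfUnit f 1) + (f * invOfUnit f 1) * D (invOfUnit f 1) := by
    ring
  rw [h4, h1, one_mul, one_mul] at h3
  linear_combination h3

theorem LD.zpw {f L : PowerSeries TorusChar} (h0 : constantCoeff f = 1) (hf : LD f L) (n : ℤ) :
    LD (zpw1 f n) (n * L) := by
  unfold zpw1
  split_ifs with h
  · have := hf.pow n.toNat
    have e : ((n.toNat : ℕ) : PowerSeries TorusChar) = (n : PowerSeries TorusChar) := by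
      have h1 : ((n.toNat : ℤ)) = n := Int.toNat_of_nonneg h
      have h2 : ((n.toNat : ℕ) : PowerSeries TorusChar) =
        ((n.toNat : ℤ) : PowerSeries TorusChar) := (Int.cast_natCast _).symm
      rw [h2, h1]
    rwa [e] at this
  · have := (hf.inv h0).pow (-n).toNat
    have e : (((-n).toNat : ℕ) : PowerSeries TorusChar) = -(n : PowerSeries TorusChar) := by
      have : (((-n).toNat : ℤ)) = -n := Int.toNat_of_nonneg (by omega)
      have h2 : (((-n).toNat : ℕ) : PowerSeries TorusChar) =
        (((-n).toNat : ℤ) : PowerSeries TorusChar) := (Int.cast_natCast _).symm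
      rw [h2, this, Int.cast_neg]
    rw [e] at this
    convert this using 1
    ring

/-- logarithmic derivative of `1 - t^u X^n` -/
noncomputable def LL (n : ℕ) (u : ℤ) : PowerSeries TorusChar :=
  PowerSeries.mk fun j => if n ∣ j ∧ 0 < j then -((n : TorusChar) * wtj (u * ((j / n : ℕ) : ℤ)))
    else 0

theorem coeff_monomial_mul' (n j : ℕ) (a : TorusChar) (g : PowerSeries TorusChar) :
    coeff j (monomial n a * g) = if n ≤ j then a * coeff (j - n) g else 0 := by
  have h : monomial n a = C a * (X : PowerSeries TorusChar) ^ n := by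
    rw [X_pow_eq, ← monomial_zero_eq_C_apply, monomial_mul_monomial, zero_add, mul_one]
  rw [h, mul_assoc, coeff_C_mul, coeff_X_pow_mul', mul_ite, mul_zero]

theorem coeff_LL (n : ℕ) (u : ℤ) (j : ℕ) : coeff j (LL n u) =
    if n ∣ j ∧ 0 < j then -((n : TorusChar) * wtj (u * ((j / n : ℕ) : ℤ))) else 0 := by
  simp only [LL, coeff_mk]

theorem LD_base (n : ℕ) (hn : 1 ≤ n) (u : ℤ) : LD (1 - monomial n (wtj u)) (LL n u) := by
  unfold LD
  ext j : 1
  rw [coeff_D, sub_mul, one_mul, map_sub, map_sub, coeff_one, coeff_monomial,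
    coeff_monomial_mul', coeff_LL, coeff_LL]
  by_cases hd : n ∣ j
  · obtain ⟨k, rfl⟩ := hd
    rcases Nat.eq_zero_or_pos k with rfl | hk
    · have h1 : ¬ (n ≤ n * 0) := by omega
      have h2 : ¬ (n ∣ n * 0 ∧ 0 < n * 0) := by omega
      rw [if_neg h1, if_neg h2]
      simp
    · have h1 : n ≤ n * k := Nat.le_mul_of_pos_right _ hk
      have h2 : 0 < n * k := by positivity
      have h3 : n * k - n = n * (k - 1) := by rw [Nat.mul_sub, mul_one]
      have h7 : ¬ (n * k = 0) := by omega
      have h8 : n ∣ n * k ∧ 0 < n * k := ⟨dvd_mul_right _ _, h2⟩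
      rw [if_neg h7, if_pos h1, if_pos h8, h3,
        Nat.mul_div_cancel_left _ hn, Nat.mul_div_cancel_left _ hn]
      by_cases hk1 : k = 1
      · subst hk1
        have h9 : ¬ (n ∣ n * (1 - 1) ∧ 0 < n * (1 - 1)) := by omega
        have h10 : n * 1 = n := mul_one n
        rw [if_pos h10, if_neg h9]
        simp
      · have h4 : n * k ≠ n := by
          intro h
          apply hk1
          exact Nat.eq_of_mul_eq_mul_left hn (by rw [h, mul_one])
        have h5 : 0 < n * (k - 1) := Nat.mul_pos hn (by omega)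
        have h9 : n ∣ n * (k - 1) ∧ 0 < n * (k - 1) := ⟨dvd_mul_right _ _, h5⟩
        rw [if_neg h4, if_pos h9]
        have h6 : wtj (u * (k : ℤ)) = wtj u * wtj (u * ((k - 1 : ℕ) : ℤ)) := by
          rw [wtj_mul]
          congr 1
          rw [Nat.cast_sub (by omega)]
          push_cast
          ring
        rw [h6]
        ring
  · have h1 : ¬ (j = n) := by rintro rfl; exact hd dvd_rfl
    have h2 : ¬ (n ∣ j - n ∧ 0 < j - n) := by
      rintro ⟨h, h'⟩
      exact hd ((Nat.dvd_sub_iff_left (by omega) dvd_rfl).1 h)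
    have h3 : ¬ (n ∣ j ∧ 0 < j) := fun h => hd h.1
    have h4 : ¬ (j = 0) := by rintro rfl; exact hd (dvd_zero _)
    rw [if_neg h4, if_neg h1, if_neg h3, if_neg h2]
    simp

/-- the logarithmic derivative of one factor -/
noncomputable def fac (A B : ℕ → ℤ) (n : ℕ) : PowerSeries TorusChar :=
  ((A n + B n : ℤ) : PowerSeries TorusChar) * LL n 0 + (((A n : ℤ) : PowerSeries TorusChar) * LL n 1
    + ((A n : ℤ) : PowerSeries TorusChar) * LL n (-1))

theorem const_base (n : ℕ) (hn : 1 ≤ n) (u : ℤ) :
    constantCoeff (1 - monomial n (wtj u) : PowerSeries TorusChar) = 1 := by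
  rw [map_sub, map_one, ← coeff_zero_eq_constantCoeff_apply, coeff_monomial,
    if_neg (by omega), sub_zero]

theorem LD_GJ (A B : ℕ → ℤ) (N : ℕ) :
    LD (GJ A B N) (∑ n ∈ Finset.Icc 1 N, fac A B n) := by
  unfold GJ
  have : ∀ s : Finset ℕ, (∀ n ∈ s, 1 ≤ n) →
      LD (∏ n ∈ s, (zpw1 (1 - PowerSeries.monomial n (wtj 0)) (A n + B n) *
        (zpw1 (1 - PowerSeries.monomial n (wtj 1)) (A n) *
          zpw1 (1 - PowerSeries.monomial n (wtj (-1))) (A n)))) (∑ n ∈ s, fac A B n) := by
    intro s
    induction s using Finset.induction_on with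
    | empty => intro _; simpa using LD.one
    | insert a s ha ih =>
      intro h
      rw [Finset.prod_insert ha, Finset.sum_insert ha]
      have h1 : 1 ≤ a := h a (Finset.mem_insert_self _ _)
      refine LD.mul ?_ (ih fun n hn => h n (Finset.mem_insert_of_mem hn))
      exact LD.mul (LD.zpw (const_base a h1 0) (LD_base a h1 0) _)
        (LD.mul (LD.zpw (const_base a h1 1) (LD_base a h1 1) _)
          (LD.zpw (const_base a h1 (-1)) (LD_base a h1 (-1)) _))
  exact this _ fun n hn => (Finset.mem_Icc.1 hn).1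

end Pool.Agent.Y899.KM
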